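import Pool.Agent.H2.PD.Asm

/-!
MP_fd4632_co, Q1: the answer is negative. There is a bridgeless (cubic) graph with 12 vertices and 18 edges whose
two-dimensional flow index with respect to the `5/2`-norm is larger than all its two-dimensional flow indices with
respect to the `p`-norms, `1 ≤ p ≤ 2`.
-/

set_option autoImplicit false

open scoped ENNReal
open Pool.Agent.H2.PD

namespace Pool.Agent.Results.MP_fd4632_co.DualityFails

theorem result : ∃ a b : Fin 18 → Fin 12, (∀ e, a e ≠ b e) ∧ Bridgeless a b ∧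
    (∀ p : ℝ≥0∞, 1 ≤ p → p ≤ 2 → NZF a b (2316 / 1000) 2 p ∧ phi a b 2 p ≤ 2316 / 1000) ∧
    (∃ r : ℝ, 2 ≤ r ∧ NZF a b r 2 (5 / 2)) ∧ 23161 / 10000 ≤ phi a b 2 (5 / 2) ∧
    ∀ p : ℝ≥0∞, 1 ≤ p → p ≤ 2 → phi a b 2 p < phi a b 2 (5 / 2) :=
  ⟨tl, hd, by decide, Pool.Agent.H935.PD.bridgeless, fun p h1 h2 => ⟨nzf_upp p h1 h2, phi_upp p h1 h2⟩, nzf_some, phi_low,
    fun p h1 h2 => lt_of_le_of_lt (phi_upp p h1 h2) (lt_of_lt_of_le (by norm_num) phi_low)⟩

end Pool.Agent.Results.MP_fd4632_co.DualityFails
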